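import Pool.Agent.Lib_MP_cddbc9.Final

/-!
# MP_cddbc9_lc: HD parity automata are more succinct than MA parity automata

For all `k ≥ 3` and `m` with `6 m ≤ k (k - 3)` there is a history-deterministic parity automaton (even a Büchi automaton) with
`k (k + 1) / 2 + 6 m` states such that every memoryless-adversarially resolvable parity automaton with the same language has at least
`m` states more.  With `k = 5`, `m = 1`: 21 states, and no MA automaton with 21 states.  This is the negated form of Q1.
-/

set_option autoImplicit false

namespace Pool.Agent.Results.MP_cddbc9_lc.NoMASameSize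

open Pool.Agent.MAR

theorem result (k m : ℕ) (hk : 3 ≤ k) (hm : 6 * m ≤ k * (k - 3)) :
    ∃ (A : Type) (_ : Fintype A) (N : NPA A), N.HD ∧ N.size = k * (k + 1) / 2 + 6 * m ∧
      (∀ q a q', N.pr q a q' ≤ 1) ∧ ∀ B : NPA A, B.MA → B.lang = N.lang → N.size + m ≤ B.size := by
  obtain ⟨N, h1, h2, h3, h4⟩ := main_thm k m hk hm
  refine ⟨Let k m, inferInstance, N, h1, h2, h3, fun B hB hL => ?_⟩
  have := h4 B hB hL
  omega

end Pool.Agent.Results.MP_cddbc9_lc.NoMASameSize
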